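import Pool.Agent.helper7.BQ.Spec
import Pool.Agent.helper85.TG.VA2
import Pool.Agent.helper9.Tors.Divs

/-!
# Row bq:T2
-/

set_option autoImplicit false

namespace Pool.Agent.BQ

open Finset ArithmeticFunction MeasureTheory
open Pool.Agent.helper74.TG (ee gb)

private theorem T2_gb_nonneg {X β : ℝ} (hX : 0 ≤ X) : 0 ≤ gb X β := by
  unfold gb
  split_ifs
  · exact hX
  · positivity

private theorem T2_gb_neg (X β : ℝ) : gb X (-β) = gb X β := by
  have h : |(-β) - round (-β)| = |β - round β| := by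
    have h1 := round_le (-β) (-round β)
    have h2 := round_le β (-round (-β))
    push_cast at h1 h2
    have e1 : |(-β) - -(round β : ℝ)| = |β - round β| := by
      rw [← abs_neg]; congr 1; ring
    have e2 : |β - -(round (-β) : ℝ)| = |(-β) - round (-β)| := by
      rw [← abs_neg]; congr 1; ring
    rw [e1] at h1
    rw [e2] at h2
    exact le_antisymm h1 h2
  unfold gb
  rw [h]

private theorem T2_gb_zero (X : ℝ) : gb X 0 = X := by
  unfold gb
  simp

/-- `gb` depends only on the absolute value of the integer factor. -/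
private theorem T2_gb_natAbs (X α : ℝ) (v : ℤ) : gb X ((v : ℝ) * α) = gb X ((v.natAbs : ℝ) * α) := by
  rw [Nat.cast_natAbs, Int.cast_abs]
  rcases abs_choice (v : ℝ) with h | h
  · rw [h]
  · rw [h, neg_mul, T2_gb_neg]

/-- the sum over the quadruples -/
private theorem T2_count (h2 : T2C_stmt) (M : ℕ) (hM : 1 ≤ M) (D X α : ℝ) (hD : 0 ≤ D)
    (hX : 0 ≤ X) (hτ : ∀ n : ℕ, 1 ≤ n → n ≤ M → (#n.divisors : ℝ) ≤ D) :
    ∑ w ∈ (Q4M M).filter (fun w => (|det4 w| : ℝ) ≤ D), gb X ((dif4 w : ℝ) * α) ≤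
      (2 * M * D + (M : ℝ) ^ 2) * X + 16 * M * D * ∑ d ∈ Ioc 0 M, gb X ((d : ℝ) * α) := by
  classical
  set S := (Q4M M).filter (fun w => (|det4 w| : ℝ) ≤ D) with hS
  have hmaps : ∀ w ∈ S, (dif4 w).natAbs ∈ range (M + 1) := by
    intro w hw
    have hw1 : w ∈ Q4M M := (mem_filter.1 hw).1
    unfold Q4M at hw1
    simp only [mem_product, mem_Ioc] at hw1
    rw [mem_range]
    unfold dif4
    omega
  rw [← sum_fiberwise_of_maps_to hmaps]
  rw [range_eq_Ico, sum_eq_sum_Ico_succ_bot (Nat.succ_pos M)]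
  have hI : Ico (0 + 1) (M + 1) = Ioc 0 M := by
    ext n
    simp only [mem_Ico, mem_Ioc]
    omega
  rw [hI]
  have hc0 := (h2 M D 0 hM hD).2 rfl
  refine add_le_add ?_ ?_
  · -- `v = 0`
    have e : ∀ w ∈ S.filter (fun w => (dif4 w).natAbs = 0), gb X ((dif4 w : ℝ) * α) = X := by
      intro w hw
      have h0 : dif4 w = 0 := Int.natAbs_eq_zero.1 (mem_filter.1 hw).2
      rw [h0, Int.cast_zero, zero_mul, T2_gb_zero]
    rw [sum_congr rfl e, sum_const, nsmul_eq_mul]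
    refine mul_le_mul_of_nonneg_right (le_trans ?_ hc0) hX
    refine Nat.cast_le.2 (card_le_card fun w hw => ?_)
    rw [mem_filter, hS, mem_filter] at hw
    rw [mem_filter]
    exact ⟨hw.1.1, Int.natAbs_eq_zero.1 hw.2, hw.1.2⟩
  · rw [mul_sum]
    refine sum_le_sum fun d hd => ?_
    rw [mem_Ioc] at hd
    have e : ∀ w ∈ S.filter (fun w => (dif4 w).natAbs = d),
        gb X ((dif4 w : ℝ) * α) = gb X ((d : ℝ) * α) := by
      intro w hw
      rw [T2_gb_natAbs, (mem_filter.1 hw).2]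
    rw [sum_congr rfl e, sum_const, nsmul_eq_mul]
    refine mul_le_mul_of_nonneg_right ?_ (T2_gb_nonneg hX)
    have hd0 : (d : ℤ) ≠ 0 := by
      have := hd.1
      omega
    have hc1 := (h2 M D (d : ℤ) hM hD).1 hd0
    have hc2 := (h2 M D (-(d : ℤ)) hM hD).1 (neg_ne_zero.2 hd0)
    rw [Int.natAbs_natCast] at hc1
    rw [Int.natAbs_neg, Int.natAbs_natCast] at hc2
    have ht := hτ d hd.1 hd.2
    have hM0 : (0 : ℝ) ≤ 4 * M := by positivity
    have hb : 4 * (M : ℝ) * (D + #d.divisors) ≤ 4 * M * (D + D) :=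
      mul_le_mul_of_nonneg_left (by linarith) hM0
    have hsub : S.filter (fun w => (dif4 w).natAbs = d) ⊆
        ((Q4M M).filter fun w => dif4 w = (d : ℤ) ∧ (|det4 w| : ℝ) ≤ D) ∪
        ((Q4M M).filter fun w => dif4 w = -(d : ℤ) ∧ (|det4 w| : ℝ) ≤ D) := by
      intro w hw
      rw [mem_filter, hS, mem_filter] at hw
      rw [mem_union, mem_filter, mem_filter]
      rcases Int.natAbs_eq (dif4 w) with h | h
      · left
        rw [hw.2] at h
        exact ⟨hw.1.1, h, hw.1.2⟩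
      · right
        rw [hw.2] at h
        exact ⟨hw.1.1, h, hw.1.2⟩
    have hcard : (#(S.filter (fun w => (dif4 w).natAbs = d)) : ℝ) ≤
        (#((Q4M M).filter fun w => dif4 w = (d : ℤ) ∧ (|det4 w| : ℝ) ≤ D) : ℝ) +
        (#((Q4M M).filter fun w => dif4 w = -(d : ℤ) ∧ (|det4 w| : ℝ) ≤ D) : ℝ) := by
      exact_mod_cast (card_le_card hsub).trans (card_union_le _ _)
    linarith

/-- the final inequality -/
private theorem T2_fin {Y B M q D u L C₂ s : ℝ} (hY : 1 ≤ Y) (hM : 1 ≤ M) (hq : 1 ≤ q)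
    (hB : 0 < B) (hL : 1 ≤ L) (hC : 0 ≤ C₂) (hu : 0 ≤ u) (hs : 1 ≤ s) (hLq : s ≤ L)
    (hD : D = 8 * M ^ 2 * B / Y) (h1 : 1 / M ≤ 2 * u) (h2 : Y / (B * M ^ 2) ≤ 4 * u)
    (h3 : M / B ≤ 3 * u) :
    (3 * Y / M) ^ 3 * B ^ 2 * ((2 * M * D + M ^ 2) * (2 * B / M) +
      16 * M * D * (C₂ * (M / q + 1) * (2 * B / M + q * s))) ≤
    (1944 + 24192 * C₂) * Y ^ 2 * B ^ 4 * L * (1 / q + q / B + u) := by
  have hM0 : 0 < M := by linarith
  have hY0 : 0 < Y := by linarith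
  have hq0 : 0 < q := by linarith
  have e : (3 * Y / M) ^ 3 * B ^ 2 * ((2 * M * D + M ^ 2) * (2 * B / M) +
      16 * M * D * (C₂ * (M / q + 1) * (2 * B / M + q * s))) =
      Y ^ 2 * B ^ 4 * (864 * (1 / M) + 54 * (Y / (B * M ^ 2)) +
        3456 * C₂ * (2 / q + 2 * (1 / M) + (M / B + q / B) * s)) := by
    rw [hD]
    field_simp
    ring
  rw [e]
  have hqB : 0 ≤ q / B := by positivity
  have hMB : 0 ≤ M / B := by positivity
  have h4 : (M / B + q / B) * s ≤ (3 * u + q / B) * L := by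
    refine mul_le_mul (by linarith) hLq (by linarith) (by positivity)
  have h1q : 0 ≤ 1 / q := by positivity
  have h5 : 864 * (1 / M) + 54 * (Y / (B * M ^ 2)) +
        3456 * C₂ * (2 / q + 2 * (1 / M) + (M / B + q / B) * s) ≤
      (1944 + 24192 * C₂) * L * (1 / q + q / B + u) := by
    have h6 : 2 / q + 2 * (1 / M) + (M / B + q / B) * s ≤ 7 * (L * (1 / q + q / B + u)) := by
      have a1 : 1 / q ≤ L * (1 / q) := le_mul_of_one_le_left h1q hL
      have a2 : u ≤ L * u := le_mul_of_one_le_left hu hL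
      have a3 : 0 ≤ L * (q / B) := by positivity
      have a4 : 0 ≤ L * (1 / q) := by positivity
      have a5 : 2 / q = 2 * (1 / q) := by ring
      nlinarith
    have h7 : 864 * (1 / M) + 54 * (Y / (B * M ^ 2)) ≤ 1944 * (L * (1 / q + q / B + u)) := by
      have a2 : u ≤ L * u := le_mul_of_one_le_left hu hL
      have a3 : 0 ≤ L * (q / B) := by positivity
      have a4 : 0 ≤ L * (1 / q) := by positivity
      nlinarith
    have h8 := mul_le_mul_of_nonneg_left h6 (by positivity : 0 ≤ 3456 * C₂)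
    linarith
  calc Y ^ 2 * B ^ 4 * (864 * (1 / M) + 54 * (Y / (B * M ^ 2)) +
        3456 * C₂ * (2 / q + 2 * (1 / M) + (M / B + q / B) * s))
      ≤ Y ^ 2 * B ^ 4 * ((1944 + 24192 * C₂) * L * (1 / q + q / B + u)) :=
        mul_le_mul_of_nonneg_left h5 (by positivity)
    _ = _ := by ring

theorem T2 (h1 : T2A_stmt) (h2 : T2C_stmt) : T2_stmt := by
  intro θ hθ hθ4
  obtain ⟨C₁, hC₁, hdiv⟩ := Pool.Agent.helper9.Tors.divisor_bound θ hθ
  obtain ⟨C₂, hC₂, hII⟩ := Pool.Agent.helper74.TG.typeII_sum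
  -- `Y` large: `Y^θ ≥ 3` and `Y^(θ/2) ≥ 2 C₁`
  obtain ⟨Y₁, hY₁⟩ : ∃ Y₁ : ℕ, ∀ Y : ℕ, Y₁ ≤ Y → 3 + 2 * C₁ ≤ (Y : ℝ) ^ (θ / 2) := by
    have ht := (tendsto_rpow_atTop (by linarith : 0 < θ / 2)).comp tendsto_natCast_atTop_atTop
    obtain ⟨Y₁, h⟩ := (Filter.tendsto_atTop.1 ht (3 + 2 * C₁)).exists_forall_of_atTop
    exact ⟨Y₁, h⟩
  refine ⟨1944 + 24192 * C₂, max Y₁ 1, by positivity, ?_⟩
  intro Y hY B M hB1 hB2 hM1 hM2 a b ha hb α a₀ q hq hqY hcop hα
  have hYY : Y₁ ≤ Y := (le_max_left _ _).trans hY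
  have hY1 : 1 ≤ Y := (le_max_right _ _).trans hY
  have hYr : (1 : ℝ) ≤ Y := by exact_mod_cast hY1
  have hY0 : (0 : ℝ) < Y := by linarith
  have hlarge := hY₁ Y hYY
  set z : ℝ := (Y : ℝ) ^ (θ / 2) with hz
  have hz1 : 1 ≤ z := by linarith
  have hz0 : 0 < z := by linarith
  have hzθ : (Y : ℝ) ^ θ = z * z := by
    rw [hz, ← Real.rpow_add hY0]
    congr 1
    ring
  set S : ℝ := Real.sqrt Y with hS
  have hSS : S * S = Y := Real.mul_self_sqrt hY0.le
  have hS1 : 1 ≤ S := by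
    rw [hS]
    exact Real.one_le_sqrt.2 hYr
  have hS0 : 0 < S := by linarith
  have hB : S * (z * z) ≤ B := by
    have e : (Y : ℝ) ^ (1 / 2 + θ) = S * (z * z) := by
      rw [Real.rpow_add hY0, hzθ, hS, Real.sqrt_eq_rpow]
    rw [← e]
    exact hB1
  have hB0 : (0 : ℝ) < B := lt_of_lt_of_le (by positivity) hB
  have hBn : 1 ≤ B := by
    have : 0 < B := by exact_mod_cast hB0
    exact this
  have hMpos : 1 ≤ M := by
    rcases Nat.eq_zero_or_pos M with h | h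
    · subst h
      norm_num at hM1
      omega
    · exact h
  have hMr : (1 : ℝ) ≤ M := by exact_mod_cast hMpos
  have hM0 : (0 : ℝ) < M := by linarith
  have hM1' : (Y : ℝ) ≤ 16 * (M : ℝ) ^ 4 := by exact_mod_cast hM1
  have hM2' : (M : ℝ) ^ 2 ≤ 9 * Y := by exact_mod_cast hM2
  -- `S ≤ 4 M²`, `M ≤ 3 S`
  have hM3 : S ≤ 4 * (M : ℝ) ^ 2 := by
    have h0 : S ^ 2 ≤ (4 * (M : ℝ) ^ 2) ^ 2 := by nlinarith
    exact (sq_le_sq₀ hS0.le (by positivity)).1 h0
  have hM4 : (M : ℝ) ≤ 3 * S := by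
    have h0 : (M : ℝ) ^ 2 ≤ (3 * S) ^ 2 := by nlinarith
    exact (sq_le_sq₀ hM0.le (by positivity)).1 h0
  -- `z² ≤ 2 M`
  have hz4 : z * z ≤ 2 * M := by
    have h0 : (z * z) * (z * z) ≤ S := by
      have e : (z * z) * (z * z) = (Y : ℝ) ^ (θ + θ) := by
        rw [← hzθ, ← Real.rpow_add hY0]
      rw [e, hS, Real.sqrt_eq_rpow]
      exact Real.rpow_le_rpow_of_exponent_le hYr (by linarith)
    have h3 : (z * z) ^ 2 ≤ (2 * (M : ℝ)) ^ 2 := by nlinarith
    exact (sq_le_sq₀ (by positivity) (by positivity)).1 h3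
  set D : ℝ := 8 * (M : ℝ) ^ 2 * B / Y with hDdef
  have hD0 : 0 ≤ D := by positivity
  have hDz : 2 * (z * z) ≤ D := by
    rw [hDdef, le_div_iff₀ hY0]
    have h3 : 2 * (z * z) * Y = 2 * (S * (z * z)) * S := by rw [← hSS]; ring
    rw [h3]
    have h4 : 2 * (S * (z * z)) * S ≤ 2 * B * (4 * (M : ℝ) ^ 2) := by
      refine mul_le_mul (by linarith) hM3 hS0.le (by positivity)
    linarith
  have hτ : ∀ n : ℕ, 1 ≤ n → n ≤ M → (#n.divisors : ℝ) ≤ D := by
    intro n hn hnM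
    have h3 := hdiv n (by omega)
    have hn9 : (n : ℝ) ≤ 9 * Y := by
      have h4 : (n : ℝ) ≤ M := by exact_mod_cast hnM
      have h5 : (M : ℝ) ≤ M ^ 2 := by nlinarith
      linarith
    have h4 : (n : ℝ) ^ θ ≤ 3 * z := by
      have hnM' : (n : ℝ) ≤ 3 * S := by
        have h4 : (n : ℝ) ≤ M := by exact_mod_cast hnM
        linarith
      have h5 : (n : ℝ) ^ θ ≤ (3 * S) ^ θ := Real.rpow_le_rpow (by positivity) hnM' hθ.le
      have h6 : (3 * S) ^ θ = 3 ^ θ * z := by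
        rw [Real.mul_rpow (by norm_num) hS0.le, hS, Real.sqrt_eq_rpow, ← Real.rpow_mul hY0.le, hz]
        congr 2
        ring
      have h7 : (3 : ℝ) ^ θ ≤ 3 := by
        calc (3 : ℝ) ^ θ ≤ 3 ^ (1 : ℝ) :=
              Real.rpow_le_rpow_of_exponent_le (by norm_num) (by linarith)
          _ = 3 := Real.rpow_one 3
      rw [h6] at h5
      exact h5.trans (mul_le_mul_of_nonneg_right h7 hz0.le)
    have h8 : C₁ * (n : ℝ) ^ θ ≤ C₁ * (3 * z) := mul_le_mul_of_nonneg_left h4 hC₁.le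
    have h9 : C₁ * (3 * z) ≤ 2 * (z * z) := by nlinarith
    linarith
  -- T2A
  have hA := h1 Y B M a b α hMpos hBn hB2 ha hb
  have hfil : (Q4M M).filter (fun w => |det4 w| * (Y : ℤ) ≤ 8 * (M : ℤ) ^ 2 * B) =
      (Q4M M).filter (fun w => (|det4 w| : ℝ) ≤ D) := by
    refine filter_congr fun w _ => ?_
    rw [hDdef, le_div_iff₀ hY0]
    have e : (|(det4 w : ℝ)| * (Y : ℝ) ≤ 8 * (M : ℝ) ^ 2 * B) ↔
        (((|det4 w| * (Y : ℤ) : ℤ) : ℝ) ≤ ((8 * (M : ℤ) ^ 2 * B : ℤ) : ℝ)) := by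
      push_cast
      exact Iff.rfl
    rw [e]
    exact Int.cast_le.symm
  rw [hfil] at hA
  have hBM : (B : ℝ) / M + 1 ≤ 2 * B / M := by
    have h3 : (1 : ℝ) ≤ B / M := by
      rw [le_div_iff₀ hM0, one_mul]
      have h4 : 3 ≤ z * z := by nlinarith
      have h5 : S * 3 ≤ S * (z * z) := mul_le_mul_of_nonneg_left h4 hS0.le
      linarith
    have e : 2 * (B : ℝ) / M = B / M + B / M := by ring
    linarith
  have hX0 : 0 ≤ (B : ℝ) / M + 1 := by positivity
  have hX0' : 0 ≤ 2 * (B : ℝ) / M := by positivity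
  have hX1 : 1 ≤ 2 * (B : ℝ) / M := by
    have : 0 ≤ (B : ℝ) / M := by positivity
    linarith
  have hsum : ∑ w ∈ (Q4M M).filter (fun w => (|det4 w| : ℝ) ≤ D),
      gb ((B : ℝ) / M + 1) ((dif4 w : ℝ) * α) ≤
      (2 * M * D + (M : ℝ) ^ 2) * (2 * B / M) +
        16 * M * D * (C₂ * ((M : ℝ) / q + 1) * (2 * B / M + q * (1 + Real.log q))) := by
    refine (sum_le_sum fun w _ => Pool.Agent.helper74.TG.gb_mono _ _ _ hBM hX0).trans ?_
    refine (T2_count h2 M hMpos D (2 * B / M) α hD0 hX0' hτ).trans ?_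
    have h3 := hII α a₀ q M (2 * B / M) hq hX1 hcop hα
    have h4 : 0 ≤ 16 * (M : ℝ) * D := by positivity
    have h5 := mul_le_mul_of_nonneg_left h3 h4
    linarith
  have hq1 : (1 : ℝ) ≤ q := by exact_mod_cast hq
  have hlogq : 0 ≤ Real.log q := Real.log_nonneg hq1
  have hlogle : Real.log q ≤ Real.log Y := Real.log_le_log (by linarith) (by exact_mod_cast hqY)
  have hu : (Y : ℝ) ^ (-θ) = 1 / (z * z) := by
    rw [Real.rpow_neg hY0.le, hzθ, one_div]
  have hzz : 0 < z * z := by positivity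
  have hfin := T2_fin (Y := (Y : ℝ)) (B := (B : ℝ)) (M := (M : ℝ)) (q := (q : ℝ)) (D := D)
    (u := (Y : ℝ) ^ (-θ)) (L := 1 + Real.log Y) (C₂ := C₂) (s := 1 + Real.log q) hYr hMr hq1 hB0
    (by linarith) hC₂.le (by positivity) (by linarith) (by linarith) hDdef
    (by
      rw [hu, div_le_iff₀ hM0]
      have e : 2 * (1 / (z * z)) * (M : ℝ) = 2 * M / (z * z) := by ring
      rw [e, le_div_iff₀ hzz]
      linarith)
    (by
      rw [hu, div_le_iff₀ (by positivity)]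
      have e : 4 * (1 / (z * z)) * ((B : ℝ) * (M : ℝ) ^ 2) = (B * (4 * (M : ℝ) ^ 2)) / (z * z) := by
        ring
      rw [e, le_div_iff₀ hzz]
      have h3 : (Y : ℝ) * (z * z) = (S * (z * z)) * S := by rw [← hSS]; ring
      rw [h3]
      exact mul_le_mul hB hM3 hS0.le hB0.le)
    (by
      rw [hu, div_le_iff₀ hB0]
      have e : 3 * (1 / (z * z)) * (B : ℝ) = 3 * B / (z * z) := by ring
      rw [e, le_div_iff₀ hzz]
      have h3 : (M : ℝ) * (z * z) ≤ (3 * S) * (z * z) := mul_le_mul_of_nonneg_right hM4 hzz.le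
      linarith)
  refine hA.trans ?_
  refine le_trans (mul_le_mul_of_nonneg_left hsum (by positivity)) ?_
  exact hfin

end Pool.Agent.BQ
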